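import Mathlib
import Pool.Agent.W526.LL.Bridge

/-!
# No local lifting compatible with all global liftings

Let `K = 𝔽₂(T)`, `F = K_∞`, `G = GL₂`, and let `ρ` be the standard representation of `GL₂(ℂ)`, for
which the unramified local lifting is the identity.  There is no map
`l : Irr(GL₂(F)) → Irr(GL₂(F))` such that for every automorphic representation `π` of `GL₂(𝔸)` and
every global lifting `σ` of `π` (an isobaric automorphic representation whose component at `p` is
that of `π` at every place `p` where `π` is unramified) the component of `σ` at `∞` is `l (π_∞)`.

Two automorphic representations with the same component at infinity have liftings with different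
components at infinity:

* `π₁` is the constituent of the automorphic forms generated by an Eisenstein type form `f`,
  `f(g) = E(g α) - E(g)`, `E(g) = ∑_n (b(g ϖ^n) - (3/4) [n < 0])`, where `b` counts the points of
  the lattice of `g` in `K²`; modulo constants `f` is a Steinberg vector at infinity, and it has
  the Hecke eigenvalues `q_v + 1` at all finite places.  Its component at infinity is the Steinberg
  representation, all other components are trivial, and its lifting is the trivial representation,
  which is the isobaric sum of `|·|^{1/2}` and `|·|^{-1/2}`.
* `π₂` is the cuspidal representation generated by a Poincare series with the Steinberg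
  representation at infinity, the sign character of `GL₂(𝔽₂) = S₃` at `T = 0`, and the
  two-dimensional character of `GL₂(𝔽₂)` at `T = 1`.  It is its own lifting.

The definitions are in `Pool/Agent/W526/LL/Stat.lean`, `Defs.lean` and `Auto.lean`.
-/

set_option autoImplicit false

namespace Pool.Agent.Results.MP_5ae62c_nt.NoLocalLifting

open Pool.Agent.W526.LL (Kv Irr SmIrr Bridge.main)
open Pool.Agent.W526.LL.Stat

/-- For `G = GL₂`, the standard representation of its dual group and the local field
`F = Kv none`, the completion of `K = 𝔽₂(T)` at infinity: there is no map `l` from `Irr(GL₂(F))` to
`Irr(GL₂(F))` such that for all automorphic representations `π` of `GL₂(𝔸_K)` with a global lifting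
`σ`, the component of `σ` at infinity is the image under `l` of the component of `π`. -/
theorem result : ¬ ∃ l : Irr (Gp none) → Irr (Gp none),
    ∀ (V V' : Type) [AddCommGroup V] [Module ℂ V] [AddCommGroup V'] [Module ℂ V']
      (π : Representation ℂ Ga V) (σ : Representation ℂ Ga V'),
      IsAutRep π → IsLift π σ →
      ∀ τ τ' : SmIrr (Gp none), IsComp π none τ → IsComp σ none τ' → l τ.cls = τ'.cls :=
  Bridge.main

end Pool.Agent.Results.MP_5ae62c_nt.NoLocalLifting
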